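import Pool.Agent.helper66.FO.Spec
import Pool.Agent.helper32.NN.All
import Pool.Agent.helper8.FR.Core

/-!
# Row fo:OPK (MP_3938c6_al)
-/

set_option autoImplicit false

open Submodule

noncomputable section

namespace Pool.Agent.FO

open Pool.Agent.NN

universe u v

section aux

variable {K : Type u} {U : Type v} [Field K] [Ring U] [Algebra K U] {A : Submodule K U}

theorem OPK_lmul (hA : A * A ≤ A) {p x : U} (hp : p ∈ 1 ⊔ A) (hx : x ∈ A) : p * x ∈ A := by
  have h1 : (1 ⊔ A) * A ≤ A := by
    rw [Submodule.sup_mul, Submodule.one_mul]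
    exact sup_le le_rfl hA
  exact h1 (Submodule.mul_mem_mul hp hx)

theorem OPK_rmul (hA : A * A ≤ A) {q x : U} (hq : q ∈ 1 ⊔ A) (hx : x ∈ A) : x * q ∈ A := by
  have h1 : A * (1 ⊔ A) ≤ A := by
    rw [Submodule.mul_sup, Submodule.mul_one]
    exact sup_le le_rfl hA
  exact h1 (Submodule.mul_mem_mul hx hq)

theorem OPK_mem (hA : A * A ≤ A) {n : ℕ} {p q : Fin n → U} (hp : ∀ i, p i ∈ 1 ⊔ A)
    (hq : ∀ i, q i ∈ 1 ⊔ A) {x : U} (hx : x ∈ A) : Opr n p q x ∈ A := by
  unfold Opr
  exact Submodule.sum_mem _ (fun i _ => OPK_rmul hA (hq i) (OPK_lmul hA (hp i) hx))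

theorem OPK_diff {n : ℕ} (p q : Fin (n + 1) → U) (j : Fin (n + 1)) (x y : U) :
    Opr (n + 1) p q (x * (q j * y)) - Opr (n + 1) p q x * (y * q j) =
      Opr n (fun i => p (j.succAbove i))
        (fun i => q j * y * q (j.succAbove i) - q (j.succAbove i) * y * q j) x := by
  unfold Opr
  rw [Finset.sum_mul, ← Finset.sum_sub_distrib, Fin.sum_univ_succAbove _ j]
  have h0 : p j * (x * (q j * y)) * q j - p j * x * q j * (y * q j) = 0 := by
    simp only [mul_assoc, sub_self]
  rw [h0, zero_add]
  apply Finset.sum_congr rfl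
  intro i _
  simp only [mul_sub, mul_assoc]

end aux

theorem OPK : OPK_stmt.{u, v} := by
  intro K U _ _ _ A hC T hT hTA n
  have hA : A * A ≤ A := hC.mul
  have hsub : ∀ J : Submodule K U, IsId A J → J * J ≤ J := by
    intro J hJ
    exact (mul_le_mul' hJ.1 le_rfl).trans hJ.2.1
  induction n with
  | zero =>
    refine ⟨0, ?_⟩
    intro p q _ _ _ x _
    unfold Opr
    simp
  | succ n ih =>
    obtain ⟨k, hk⟩ := ih
    obtain ⟨hkI, hkA, -, -⟩ := all_TKP K U A hC k
    have hT' : IsId A (T ⊔ TT A k) := by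
      refine ⟨sup_le hT.1 hkI.1, ?_, ?_⟩
      · rw [Submodule.mul_sup]
        exact sup_le_sup hT.2.1 hkI.2.1
      · rw [Submodule.sup_mul]
        exact sup_le_sup hT.2.2 hkI.2.2
    have hT'A : T ⊔ TT A k ≠ A :=
      all_TWO K U A hC T (TT A k) hT.1 hkI.1 (hsub T hT) (hsub _ hkI) hTA hkA
    obtain ⟨J, hJ, hJA, hJF⟩ := FR.FR_main A hC (T ⊔ TT A k) hT' hT'A
    obtain ⟨k', hk'⟩ := (all_GEN K U A hC).2.1 J hJ.1 (hsub J hJ) hJA
    refine ⟨k', ?_⟩
    intro p q hp hq hF x hx
    obtain ⟨F, hFG, hF⟩ := hF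
    -- the key claim
    have key : ∀ (j : Fin (n + 1)) (y : U), y ∈ A → ∀ z ∈ A,
        Opr (n + 1) p q z * (y * q j) ∈ F ⊔ (T ⊔ TT A k) := by
      intro j y hy z hz
      have hyq : y * q j ∈ A := OPK_rmul hA (hq j) hy
      have hqy : q j * y ∈ A := OPK_lmul hA (hq j) hy
      have h1 : Opr n (fun i => p (j.succAbove i))
          (fun i => q j * y * q (j.succAbove i) - q (j.succAbove i) * y * q j) z ∈ TT A k := by
        apply hk
        · intro i
          exact hp _
        · intro i
          apply Submodule.mem_sup_right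
          exact A.sub_mem (OPK_rmul hA (hq _) hqy) (OPK_rmul hA (hq _) (OPK_lmul hA (hq _) hy))
        · refine ⟨F ⊔ F * span K {y * q j}, hFG.sup (hFG.mul (Submodule.fg_span_singleton _)), ?_⟩
          intro w hw
          rw [← OPK_diff]
          apply Submodule.sub_mem
          · have h2 := hF (w * (q j * y)) (hA (Submodule.mul_mem_mul hw hqy))
            exact (sup_le_sup le_sup_left le_rfl : F ⊔ T ≤ (F ⊔ F * span K {y * q j}) ⊔ T) h2
          · have h2 := hF w hw
            have h3 : (F ⊔ T) * span K {y * q j} ≤ (F ⊔ F * span K {y * q j}) ⊔ T := by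
              rw [Submodule.sup_mul]
              refine sup_le_sup le_sup_right ?_
              refine le_trans (mul_le_mul' le_rfl ?_) hT.2.2
              rw [span_le]
              intro a ha
              rw [Set.mem_singleton_iff] at ha
              rw [ha]
              exact hyq
            exact h3 (Submodule.mul_mem_mul h2 (Submodule.mem_span_singleton_self _))
        · exact hz
      rw [← OPK_diff] at h1
      have h2 := hF (z * (q j * y)) (hA (Submodule.mul_mem_mul hz hqy))
      have h3 : Opr (n + 1) p q z * (y * q j) = Opr (n + 1) p q (z * (q j * y)) -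
          (Opr (n + 1) p q (z * (q j * y)) - Opr (n + 1) p q z * (y * q j)) := by abel
      rw [h3]
      apply Submodule.sub_mem
      · exact (sup_le_sup le_rfl le_sup_left : F ⊔ T ≤ F ⊔ (T ⊔ TT A k)) h2
      · exact Submodule.mem_sup_right (Submodule.mem_sup_right h1)
    -- the conclusion
    apply hk'
    apply hJF
    refine ⟨OPK_mem hA hp hq hx, F, hFG, ?_⟩
    intro a ha
    have h4 : Opr (n + 1) p q x * a * Opr (n + 1) p q x =
        ∑ j, Opr (n + 1) p q x * ((a * p j * x) * q j) := by
      conv_lhs => rw [show Opr (n + 1) p q x * a * Opr (n + 1) p q x =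
        Opr (n + 1) p q x * a * ∑ j, p j * x * q j from rfl]
      rw [Finset.mul_sum]
      apply Finset.sum_congr rfl
      intro j _
      simp only [mul_assoc]
    rw [h4]
    apply Submodule.sum_mem
    intro j _
    exact key j (a * p j * x) (hA (Submodule.mul_mem_mul (OPK_rmul hA (hp j) ha) hx)) x hx

end Pool.Agent.FO
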